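import Pool.Agent.Y373.Idio

set_option autoImplicit false

namespace Pool.Agent.Results.MP_15d263_co.AllPairs

open Pool.Agent.Y373.Idio

/-- Every `T(x,y)` with `max(|x|,|y|) ≥ 2` admits an idiomeric tiling of the plane. -/
theorem result (x y : ℤ) (hxy : 2 ≤ max |x| |y|) :
    ∃ F : Set (Set Plane), IsTiling F ∧ Monohedral F (T x y) ∧ Idiomeric F :=
  allPairs x y hxy

end Pool.Agent.Results.MP_15d263_co.AllPairs
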